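import Pool.Agent.Helper61.MI.Stmt
import Pool.Agent.Helper61.MI.Nonempty

set_option autoImplicit false

/-!
# Multiplier ideals of 22 points on three lines

For a reduced set `Z` of `22` points of `ℙ²` (`10`, `7`, `4` points on three lines without a
common point, and one point off the lines), all multiplier ideals `𝒥(I(Z)^c)`, `c > 0`, and all
jumping numbers of the ideal `I(Z)` on `ℂ³`.

The answer does not need general position: it holds for every choice of distinct points on the
lines outside the intersections of the lines, and every further point off the lines.  Such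
configurations exist (`Nonempty Config` is proved in `Pool.Agent.Helper61.MI.Nonempty`).
-/

namespace Pool.Agent.Results.MP_724b08_ag.MultiplierIdeals

open Pool.Agent.Helper61.MI (Config idealOf multiplier_eq jumping_iff)
open Pool.Agent.Helper61.MI.Stmt

/-- With `ℓ₀, ℓ₁, ℓ₂` the equations of the three lines, `𝒥(I(Z)^c)` is the intersection of the
ideals of all polynomials of weighted order at least `⌊4c⌋-2, ⌊10c⌋-8, ⌊8c⌋-6, ⌊6c⌋-4,
⌊10c⌋-8, ⌊10c⌋-8, ⌊8c⌋-6` for the weights `(1,1,1), (7,1,1), (1,5,1), (1,1,3), (3,5,1), (5,1,3),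
(1,3,3)` of `ℓ₀, ℓ₁, ℓ₂`, and of the powers `I(p)^(⌊c⌋-1)` for the `22` points `p` (here a negative
number is replaced by `0`); and the jumping numbers are `3/4` and all `c ≥ 1` such that `10c`, `8c`
or `6c` is an integer. -/
theorem result (C : Config) :
    (∀ c : ℝ, 0 < c → multiplier (idealOf C.pts) c = explicit C c) ∧
    (∀ c : ℝ, IsJumpingNumber (idealOf C.pts) c ↔
      c = 3 / 4 ∨ 1 ≤ c ∧ ∃ n : ℤ, 10 * c = n ∨ 8 * c = n ∨ 6 * c = n) := by
  refine ⟨fun c hc => ?_, fun c => ?_⟩
  · rw [multiplier_eq', explicit_eq]
    exact multiplier_eq C c hc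
  · rw [isJumpingNumber_iff]
    exact jumping_iff C c

end Pool.Agent.Results.MP_724b08_ag.MultiplierIdeals
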